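import Pool.Agent.Y118.HV.Mx

/-!
# CM points of variations of mixed Hodge structure with a graded piece of Calabi–Yau type

Let `𝒱` be a polarised variation of Hodge structure of rank `2m ≥ 4` and weight `2m - 1` with all Hodge numbers
`h^{p,q} = 1` over an open part of the projective line, which comes from a family of varieties over `ℚ(x)`, such that
`x = 0` is a point with maximally unipotent monodromy and such that the monodromy group (equivalently, the differential
Galois group) is Zariski dense in `Sp(2m)`. For `m = 2` these are the families of Calabi–Yau threefolds with `h^{2,1} = 1`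
(or motives with these Hodge numbers) with a large complex structure limit and Zariski dense monodromy. A variation of
mixed Hodge structure with `𝒱` as a graded piece is not of Shimura type, so the André–Oort conjecture for variations of
mixed Hodge structure predicts that there are only finitely many CM points. Examples are the variations given by families of
algebraic cycles (normal functions) or of higher cycles on the Calabi–Yau varieties, or by open or singular varieties.

With respect to a basis of sections over `ℚ(x)` adapted to the Hodge filtration and to the basis of flat sections for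
which the local monodromy is `exp (2 π i N)`, `N` the standard nilpotent matrix, the period matrix is `H(x) x^N` with a
matrix `H` of G-functions with rational coefficients; the flat polarisation is given by a rational matrix `S` and its
matrix with respect to the algebraic basis is `H S Hᵀ = B / p` with polynomials `B`, `p`. The rational structure is given by
an invertible matrix `C` (with `ζ(3) / (2 π i)^3` and similar periods as entries).

We prove that there is `t₀` such that for all integers `t ≥ t₀` no mixed Hodge structure whose graded piece of weight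
`2m - 1` is the fibre of `𝒱` at `x = 1 / t` has complex multiplication. Here `t₀` depends only on `𝒱` and neither on the
rational structure nor on the mixed Hodge structure.
-/

set_option autoImplicit false

open PowerSeries

namespace Pool.Agent.Results.MP_cb3775_ag.MixedCM

/-- an integer polynomial as a power series with rational coefficients -/
noncomputable def toQ (P : Polynomial ℤ) : PowerSeries ℚ := ((P.map (Int.castRingHom ℚ) : Polynomial ℚ) : PowerSeries ℚ)

/-- the power series `P(u^e)` -/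
noncomputable def atPow (e : ℕ) (P : Polynomial ℤ) : PowerSeries ℂ :=
  ((Polynomial.expand ℂ e (P.map (Int.castRingHom ℂ)) : Polynomial ℂ) : PowerSeries ℂ)

/-- the matrices `G_s` over `ℤ[x]` with `T^s y^(s) = G_s y` for all solutions `y` of `T y' = A y` -/
noncomputable def iter {r : ℕ} (T : Polynomial ℤ) (A : Fin r → Fin r → Polynomial ℤ) : ℕ → Fin r → Fin r → Polynomial ℤ
  | 0 => fun i j => if i = j then 1 else 0
  | s + 1 => fun i j => T * Polynomial.derivative (iter T A s i j) + ∑ l, iter T A s i l * A l j -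
      (s : Polynomial ℤ) * (Polynomial.derivative T * iter T A s i j)

/-- The system `T y' = A y` has a fundamental matrix of solutions of the form `u^(-M) ∑_n Φ_n(u) (log u)^n` with
`u^e = x` and convergent power series `Φ_n`: the point `0` is an ordinary point or a regular singularity with rational
exponents. -/
def QuasiUnipotent {r : ℕ} (T : Polynomial ℤ) (A : Fin r → Fin r → Polynomial ℤ) : Prop :=
  ∃ (e M : ℕ) (K : ℝ) (Φ : Matrix (Fin r) (Fin r) (Polynomial (PowerSeries ℂ))), 1 ≤ e ∧ Φ.det ≠ 0 ∧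
    (∀ i j n m, ‖coeff m ((Φ i j).coeff n)‖ ≤ K ^ (m + 1)) ∧
    ∀ i j n, atPow e T * (X * PowerSeries.derivative ℂ ((Φ i j).coeff n) +
        ((n : PowerSeries ℂ) + 1) * (Φ i j).coeff (n + 1) - (M : PowerSeries ℂ) * (Φ i j).coeff n) =
      (e : PowerSeries ℂ) * X ^ e * ∑ l, atPow e (A i l) * (Φ l j).coeff n

/-- `h_1, ..., h_r` are G-functions with rational coefficients which solve the differential system `T y' = A y`, with
the conditions of Siegel and Galochkin, and the system is regular with rational exponents at `0`. -/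
structure GFamily {r : ℕ} (T : Polynomial ℤ) (A : Fin r → Fin r → Polynomial ℤ) (h : Fin r → PowerSeries ℚ) : Prop where
  /-- the denominator is not zero -/
  T_ne : T ≠ 0
  /-- the differential equations -/
  ode : ∀ i, toQ T * PowerSeries.derivative ℚ (h i) = ∑ j, toQ (A i j) * h j
  /-- the coefficients have geometric growth -/
  size : ∃ C : ℝ, ∀ i m, |((coeff m (h i) : ℚ) : ℝ)| ≤ C ^ (m + 1)
  /-- the common denominators of the coefficients have geometric growth -/
  den : ∃ C : ℝ, ∀ m : ℕ, ∃ d : ℕ, 0 < d ∧ (d : ℝ) ≤ C ^ (m + 1) ∧ ∀ i, ∀ j ≤ m, ∃ a : ℤ, (d : ℚ) * coeff j (h i) = a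
  /-- Galochkin's condition: the common denominators of the matrices `G_s / s!` have geometric growth -/
  galochkin : ∃ C : ℝ, ∀ m : ℕ, ∃ d : ℕ, 0 < d ∧ (d : ℝ) ≤ C ^ (m + 1) ∧ ∀ s ≤ m, ∀ i j,
    ∃ H : Polynomial ℤ, (d : Polynomial ℤ) * iter T A s i j = (s.factorial : Polynomial ℤ) * H
  /-- the local exponents at `0` are rational and the singularity is regular -/
  regular : QuasiUnipotent T A

/-- the entries of a matrix -/
def entries {n : ℕ} (H : Matrix (Fin n) (Fin n) (PowerSeries ℚ)) : Fin (n * n) → PowerSeries ℚ := fun a =>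
  H (finProdFinEquiv.symm a).1 (finProdFinEquiv.symm a).2

/-- the nilpotent matrix of the local monodromy `exp (2 π i N)` at `x = 0` -/
def N (n : ℕ) : Matrix (Fin n) (Fin n) ℚ := Matrix.of fun i j => if (j : ℕ) = i + 1 then 1 else 0

/-- rational matrices as complex matrices -/
def toC {n : ℕ} (M : Matrix (Fin n) (Fin n) ℚ) : Matrix (Fin n) (Fin n) ℂ := M.map fun x : ℚ => (x : ℂ)

/-- `S` is the matrix of a flat alternating form, invariant under the local monodromy `exp (2 π i N)`; its matrix with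
respect to the algebraic basis is `H S Hᵀ = B / p`, and the first `m` sections span isotropic subspaces. -/
structure Polarised {m : ℕ} (H : Matrix (Fin (2 * m)) (Fin (2 * m)) (PowerSeries ℚ))
    (S : Matrix (Fin (2 * m)) (Fin (2 * m)) ℚ) (p : Polynomial ℚ)
    (B : Matrix (Fin (2 * m)) (Fin (2 * m)) (Polynomial ℚ)) : Prop where
  S_skew : S.transpose = -S
  S_det : S.det ≠ 0
  S_inv : N (2 * m) * S + S * (N (2 * m)).transpose = 0
  p_ne : p ≠ 0
  B_det : B.det ≠ 0
  form : (p : PowerSeries ℚ) • (H * S.map (PowerSeries.C (R := ℚ)) * H.transpose) = B.map fun f => (f : PowerSeries ℚ)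
  isotropic : ∀ i j : Fin (2 * m), (i : ℕ) < m → (j : ℕ) < m → B i j = 0

/-- the complex matrices `g` with `p(1/t) g S gᵀ = B(1/t)` -/
def formFibre {n : ℕ} (S : Matrix (Fin n) (Fin n) ℚ) (p : Polynomial ℚ) (B : Matrix (Fin n) (Fin n) (Polynomial ℚ))
    (t : ℕ) : Set (Matrix (Fin n) (Fin n) ℂ) :=
  {g | ((p.eval (1 / (t : ℚ)) : ℚ) : ℂ) • (g * toC S * g.transpose) = toC (B.map fun f => f.eval (1 / (t : ℚ)))}

/-- specialisation at `x = 1 / t` -/
noncomputable def spec (t : ℕ) : Polynomial ℚ →+* ℂ := (algebraMap ℚ ℂ).comp (Polynomial.evalRingHom (1 / (t : ℚ)))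

/-- The monodromy group is Zariski dense in the symplectic group: all polynomial relations `R(x, H(x)) = 0` over `ℚ[x]`
between the entries of `H` follow from `p H S Hᵀ = B`, that is, at all `x = 1 / t` with `p(x) ≠ 0`, `det B(x) ≠ 0` they
hold at all matrices `g` with `p(x) g S gᵀ = B(x)`. -/
def FullMonodromy {n : ℕ} (H : Matrix (Fin n) (Fin n) (PowerSeries ℚ)) (S : Matrix (Fin n) (Fin n) ℚ) (p : Polynomial ℚ)
    (B : Matrix (Fin n) (Fin n) (Polynomial ℚ)) : Prop :=
  ∀ R : MvPolynomial (Fin n × Fin n) (Polynomial ℚ), MvPolynomial.aeval (fun a : Fin n × Fin n => H a.1 a.2) R = 0 →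
    ∀ t : ℕ, p.eval (1 / (t : ℚ)) ≠ 0 → B.det.eval (1 / (t : ℚ)) ≠ 0 → ∀ g ∈ formFibre S p B t,
      MvPolynomial.eval₂ (spec t) (fun a => g a.1 a.2) R = 0

/-- the period matrix `H(x) x^N = H(x) exp (N log x)` at `x = 1 / t` -/
noncomputable def per {n : ℕ} (H : Matrix (Fin n) (Fin n) (PowerSeries ℚ)) (t : ℕ) : Matrix (Fin n) (Fin n) ℂ :=
  (Matrix.of fun i j => ((∑' k : ℕ, ((coeff k (H i j) : ℚ) : ℝ) * (1 / (t : ℝ)) ^ k : ℝ) : ℂ)) *
    ∑ l ∈ Finset.range n, ((-((Real.log t : ℝ) : ℂ)) ^ l / (l.factorial : ℂ)) • toC (N n) ^ l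

/-- The base change `C` from the flat basis to a rational basis is a rational structure with the polarisation `P`: the
logarithm `2 π i C⁻¹ N C` of the local monodromy is rational and the flat form is proportional to the rational form `P` on
rows, `(v C⁻¹) S (w C⁻¹)ᵀ = κ v P wᵀ`. -/
structure RationalStructure {n : ℕ} (S : Matrix (Fin n) (Fin n) ℚ) (C : Matrix (Fin n) (Fin n) ℂ)
    (P : Matrix (Fin n) (Fin n) ℚ) : Prop where
  det : C.det ≠ 0
  log : ∃ M : Matrix (Fin n) (Fin n) ℚ, C * toC M = (2 * (Real.pi : ℂ) * Complex.I) • (toC (N n) * C)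
  form : ∃ κ : ℂ, C⁻¹ * toC S * (C⁻¹).transpose = κ • toC P

/-- The step `F^q` of the Hodge filtration at the point `x = 1 / t` in the rational coordinates: the span of the rows
`i < 2m - q` of the period matrix if `q ≥ m`, and the orthogonal complement of `F^{2m-q}` if `q < m`. -/
noncomputable def F {m : ℕ} (H : Matrix (Fin (2 * m)) (Fin (2 * m)) (PowerSeries ℚ)) (t : ℕ)
    (C : Matrix (Fin (2 * m)) (Fin (2 * m)) ℂ) (P : Matrix (Fin (2 * m)) (Fin (2 * m)) ℚ) (q : ℕ) :
    Submodule ℂ (Fin (2 * m) → ℂ) :=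
  if m ≤ q then Submodule.span ℂ {v | ∃ i : Fin (2 * m), (i : ℕ) + q < 2 * m ∧ v = (per H t * C) i}
  else
    { carrier := {v | ∀ j : Fin (2 * m), (j : ℕ) < q → dotProduct v (Matrix.mulVec (toC P) ((per H t * C) j)) = 0}
      add_mem' := fun {a b} ha hb j hj => by rw [add_dotProduct, ha j hj, hb j hj, add_zero]
      zero_mem' := fun j _ => zero_dotProduct _
      smul_mem' := fun c a ha j hj => by rw [smul_dotProduct, ha j hj, smul_zero] }

/-- The filtration `F` and its complex conjugate are opposed, that is, they define a Hodge structure of weight `n - 1`: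
no non-zero vector `v` satisfies `v ∈ F^p` and `conj v ∈ F^{n-p}`. -/
def IsHodge {n : ℕ} (F : ℕ → Submodule ℂ (Fin n → ℂ)) : Prop := ∀ p ≤ n, ∀ v ∈ F p, star v ∈ F (n - p) → v = 0

/-- The step `W_k` of a weight filtration on `ℚ^r ⊗ ℂ`, in a basis adapted to it: the `i`-th basis vector has weight
`wt i`. -/
def weightStep {r : ℕ} (wt : Fin r → ℤ) (k : ℤ) : Submodule ℂ (Fin r → ℂ) where
  carrier := {v | ∀ i, k < wt i → v i = 0}
  add_mem' := fun {a b} ha hb i hi => by rw [Pi.add_apply, ha i hi, hb i hi, add_zero]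
  zero_mem' := fun _ _ => rfl
  smul_mem' := fun c a ha i hi => by rw [Pi.smul_apply, ha i hi, smul_zero]

/-- The step `F^p` of the filtration induced by `Φ` on the graded piece `Gr_k = W_k / W_{k-1}`, which has the basis
vectors of weight `k` as a basis. -/
def Gr {r : ℕ} (wt : Fin r → ℤ) (Φ : ℤ → Submodule ℂ (Fin r → ℂ)) (k p : ℤ) : Set ({i // wt i = k} → ℂ) :=
  {u | ∃ v ∈ Φ p, v ∈ weightStep wt k ∧ ∀ i : {i // wt i = k}, u i = v i}

/-- Complex multiplication for the mixed Hodge structure on `ℚ^r` with weights `wt` and Hodge filtration `Φ`: there is a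
rational vector space `𝔱` of commuting matrices which preserve the weight filtration, such that `𝔱 ⊗ ℂ` contains an operator
`φ` which acts on the part `F^p ∩ conj F^{k-p}` of type `(p, k - p)` of every graded piece `Gr_k` as multiplication by `p`.
If the Mumford–Tate group is a torus then its Lie algebra has this property: `φ` is the operator which is multiplication by
`p` on the summand `I^{p,q}` of Deligne's decomposition. -/
def HasCM {r : ℕ} (wt : Fin r → ℤ) (Φ : ℤ → Submodule ℂ (Fin r → ℂ)) : Prop :=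
  ∃ 𝔱 : Submodule ℚ (Matrix (Fin r) (Fin r) ℚ), (∀ X ∈ 𝔱, ∀ Y ∈ 𝔱, X * Y = Y * X) ∧
    (∀ X ∈ 𝔱, ∀ i j, wt i < wt j → X i j = 0) ∧
    ∃ φ ∈ Submodule.span ℂ {Z | ∃ X ∈ 𝔱, Z = toC X}, ∀ k p : ℤ, ∀ u ∈ Gr wt Φ k p, star u ∈ Gr wt Φ k (k - p) →
      Matrix.vecMul u (φ.submatrix (fun i : {i // wt i = k} => (i : Fin r)) fun i : {i // wt i = k} => (i : Fin r)) = (p : ℂ) • u

theorem iter_eq {r : ℕ} (T : Polynomial ℤ) (A : Fin r → Fin r → Polynomial ℤ) (s : ℕ) :
    iter T A s = Pool.Agent.Y120.GH.itm T A s := by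
  induction s with
  | zero => rfl
  | succ s ih =>
    funext i j
    rw [iter, Pool.Agent.Y120.GH.itm, ih]

theorem qu_eq {r : ℕ} {T : Polynomial ℤ} {A : Fin r → Fin r → Polynomial ℤ} (h : QuasiUnipotent T A) :
    Pool.Agent.Y120.GH.QU0 T A := by
  obtain ⟨e, M, K, Φ, he, hdet, hc, heq⟩ := h
  have he0 : e ≠ 0 := by omega
  refine ⟨e, he0, M, K, Φ, hc, fun i j n => ?_, hdet⟩
  have h1 := heq i j n
  simp only [atPow] at h1
  rw [Pool.Agent.Y120.GH.expand_poly he0]
  simp only [Pool.Agent.Y120.GH.expand_poly he0]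
  exact h1

theorem gal_eq {r : ℕ} {T : Polynomial ℤ} {A : Fin r → Fin r → Polynomial ℤ} {h : Fin r → PowerSeries ℚ}
    (hG : GFamily T A h) : ∃ C : ℝ, ∀ m, ∃ d : ℕ, 0 < d ∧ (d : ℝ) ≤ C ^ (m + 1) ∧ ∀ s ≤ m, ∀ i j, ∃ H : Polynomial ℤ,
      (d : Polynomial ℤ) * Pool.Agent.Y120.GH.itm T A s i j = (s.factorial : Polynomial ℤ) * H := by
  obtain ⟨C, hC⟩ := hG.galochkin
  refine ⟨C, fun m => ?_⟩
  obtain ⟨d, h1, h2, h3⟩ := hC m
  refine ⟨d, h1, h2, fun s hs i' j' => ?_⟩
  rw [← iter_eq]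
  exact h3 s hs i' j'

theorem map_eq {n : ℕ} (M : Matrix (Fin n) (Fin n) ℚ) : toC M = Pool.Agent.Y119.HY.cm M := by
  ext i j
  rw [Pool.Agent.Y119.HY.cm_apply]
  rfl

theorem per_eq {n : ℕ} (H : Matrix (Fin n) (Fin n) (PowerSeries ℚ)) (t : ℕ) (C : Matrix (Fin n) (Fin n) ℂ) :
    per H t * C = Pool.Agent.Y118.HV.Vt H t C := by
  unfold per Pool.Agent.Y118.HV.Vt
  rw [map_eq, Matrix.mul_assoc]
  rfl

theorem F_eq {m : ℕ} (H : Matrix (Fin (2 * m)) (Fin (2 * m)) (PowerSeries ℚ)) (t : ℕ)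
    (C : Matrix (Fin (2 * m)) (Fin (2 * m)) ℂ) (P : Matrix (Fin (2 * m)) (Fin (2 * m)) ℚ) (q : ℕ) :
    F H t C P q = Pool.Agent.Y118.HX.Fl (Pool.Agent.Y118.HV.vr (Pool.Agent.Y118.HV.Vt H t C))
      (Pool.Agent.Y119.HY.cm P) q := by
  by_cases hq : m ≤ q
  · rw [Pool.Agent.Y118.HX.Fl_hi hq]
    unfold F
    rw [if_pos hq]
    congr 1
    ext v
    constructor
    · rintro ⟨i, hi, rfl⟩
      exact ⟨i, hi, by rw [per_eq, Pool.Agent.Y118.HV.vr_fin]⟩
    · rintro ⟨i, hi, rfl⟩
      exact ⟨⟨i, by omega⟩, hi, by rw [per_eq]; exact Pool.Agent.Y118.HV.vr_fin _ ⟨i, by omega⟩⟩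
  · ext v
    rw [Pool.Agent.Y118.HX.mem_Fl_lo (not_le.1 hq)]
    unfold F
    rw [if_neg hq]
    show (∀ j : Fin (2 * m), (j : ℕ) < q → dotProduct v (Matrix.mulVec (toC P) ((per H t * C) j)) = 0) ↔ _
    rw [map_eq, per_eq]
    constructor
    · intro h j hj
      have h1 := h ⟨j, by omega⟩ hj
      have h2 := Pool.Agent.Y118.HV.vr_fin (Pool.Agent.Y118.HV.Vt H t C) ⟨j, by omega⟩
      rw [← h2] at h1
      exact h1
    · intro h j hj
      have h1 := h j hj
      rw [Pool.Agent.Y118.HV.vr_fin] at h1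
      exact h1

/-- from the form on rows to the dual form -/
theorem dual_of {m : ℕ} (hm : 1 ≤ m) {S : Matrix (Fin (2 * m)) (Fin (2 * m)) ℚ} (hS : S.det ≠ 0)
    {C : Matrix (Fin (2 * m)) (Fin (2 * m)) ℂ} {P : Matrix (Fin (2 * m)) (Fin (2 * m)) ℚ}
    {κ : ℂ} (hC : C.det ≠ 0) (hP : C⁻¹ * toC S * (C⁻¹).transpose = κ • toC P) :
    P.det ≠ 0 ∧ C.transpose * Pool.Agent.Y119.HY.cm S⁻¹ * C = κ⁻¹ • Pool.Agent.Y119.HY.cm P⁻¹ := by
  rw [map_eq, map_eq] at hP
  have hSu : IsUnit S.det := isUnit_iff_ne_zero.2 hS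
  have s2 : Pool.Agent.Y119.HY.cm S⁻¹ * Pool.Agent.Y119.HY.cm S = 1 := by
    rw [← Pool.Agent.Y119.HY.cm_mul, Matrix.nonsing_inv_mul _ hSu, Pool.Agent.Y119.HY.cm_one]
  have hu : IsUnit C.det := isUnit_iff_ne_zero.2 hC
  have e1 : C * C⁻¹ = 1 := Matrix.mul_nonsing_inv _ hu
  have e2 : C.transpose * (C⁻¹).transpose = 1 := by
    rw [← Matrix.transpose_mul, Matrix.nonsing_inv_mul _ hu, Matrix.transpose_one]
  set X := C.transpose * Pool.Agent.Y119.HY.cm S⁻¹ * C with hX
  have h1 : X * (κ • Pool.Agent.Y119.HY.cm P) = 1 := by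
    rw [← hP, hX]
    calc (C.transpose * Pool.Agent.Y119.HY.cm S⁻¹ * C) * (C⁻¹ * Pool.Agent.Y119.HY.cm S * (C⁻¹).transpose) =
          C.transpose * Pool.Agent.Y119.HY.cm S⁻¹ * (C * C⁻¹) * Pool.Agent.Y119.HY.cm S * (C⁻¹).transpose := by
          simp only [Matrix.mul_assoc]
      _ = C.transpose * (Pool.Agent.Y119.HY.cm S⁻¹ * Pool.Agent.Y119.HY.cm S) * (C⁻¹).transpose := by
          rw [e1, Matrix.mul_one]
          simp only [Matrix.mul_assoc]
      _ = 1 := by rw [s2, Matrix.mul_one, e2]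
  have hκ : κ ≠ 0 := by
    intro h0
    rw [h0, zero_smul, Matrix.mul_zero] at h1
    have h2 := congrFun (congrFun h1 ⟨0, by omega⟩) ⟨0, by omega⟩
    rw [Matrix.zero_apply, Matrix.one_apply_eq] at h2
    exact zero_ne_one h2
  have hPd : P.det ≠ 0 := by
    intro h0
    have h2 : (κ • Pool.Agent.Y119.HY.cm P).det = 0 := by
      rw [Matrix.det_smul, Pool.Agent.Y118.HV.cm_det, h0, Rat.cast_zero, mul_zero]
    have h3 := congrArg Matrix.det h1
    rw [Matrix.det_mul, h2, mul_zero, Matrix.det_one] at h3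
    exact zero_ne_one h3
  refine ⟨hPd, ?_⟩
  have hPu : IsUnit P.det := isUnit_iff_ne_zero.2 hPd
  have e3 : Pool.Agent.Y119.HY.cm P * Pool.Agent.Y119.HY.cm P⁻¹ = 1 := by
    rw [← Pool.Agent.Y119.HY.cm_mul, Matrix.mul_nonsing_inv _ hPu, Pool.Agent.Y119.HY.cm_one]
  calc X = X * ((κ • Pool.Agent.Y119.HY.cm P) * (κ⁻¹ • Pool.Agent.Y119.HY.cm P⁻¹)) := by
        rw [Matrix.smul_mul, Matrix.mul_smul (Pool.Agent.Y119.HY.cm P), smul_smul, mul_inv_cancel₀ hκ, one_smul, e3,
          Matrix.mul_one]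
    _ = κ⁻¹ • Pool.Agent.Y119.HY.cm P⁻¹ := by
        rw [← Matrix.mul_assoc, h1, Matrix.one_mul]

/-- blocks of matrices which preserve the weight filtration -/
theorem blk_mul {r n : ℕ} {wt : Fin r → ℤ} {k : ℤ} (e : Fin n ≃ {i // wt i = k}) {X Y : Matrix (Fin r) (Fin r) ℚ}
    (hX : ∀ i j, wt i < wt j → X i j = 0) (hY : ∀ i j, wt i < wt j → Y i j = 0) :
    X.submatrix (fun i => (e i : Fin r)) (fun i => (e i : Fin r)) * Y.submatrix (fun i => (e i : Fin r)) (fun i => (e i : Fin r)) =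
      (X * Y).submatrix (fun i => (e i : Fin r)) (fun i => (e i : Fin r)) := by
  ext i j
  rw [Matrix.submatrix_apply, Matrix.mul_apply, Matrix.mul_apply]
  simp only [Matrix.submatrix_apply]
  have h1 : ∑ a, X (e i) (e a) * Y (e a) (e j) = ∑ x : {i // wt i = k}, X (e i) x * Y x (e j) :=
    Equiv.sum_comp e fun x : {i // wt i = k} => X (e i) x * Y x (e j)
  rw [h1, ← Finset.sum_subtype (Finset.univ.filter fun l => wt l = k) (fun x => by simp) fun l => X (e i) l * Y l (e j)]
  refine Finset.sum_filter_of_ne fun l _ hl => ?_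
  by_contra hne
  apply hl
  rcases lt_or_gt_of_ne hne with h2 | h2
  · rw [hY l (e j) (by rw [(e j).2]; exact h2), mul_zero]
  · rw [hX (e i) l (by rw [(e i).2]; exact h2), zero_mul]

theorem map_smul_cast {n : ℕ} (c : ℚ) (B : Matrix (Fin n) (Fin n) ℚ) : toC (c • B) = (c : ℂ) • toC B := by
  ext i j
  show ((c * B i j : ℚ) : ℂ) = (c : ℂ) * (B i j : ℂ)
  push_cast
  rfl

/-- Let `n = 2m ≥ 4` and let `H` be an `n × n` matrix of G-functions with rational coefficients, polarised by `S`, `p`, `B`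
and with full symplectic monodromy. Then there is `t₀` such that for all integers `t ≥ t₀`, all rational structures `C`
with polarisation `P` for which the filtration `F` at the point `1 / t` defines a Hodge structure, and all mixed Hodge
structures on `ℚ^r` (weights `wt`, Hodge filtration `Φ`) whose graded piece of weight `2m - 1` is this Hodge structure: the
mixed Hodge structure does not have complex multiplication. -/
theorem result {m : ℕ} (hm : 2 ≤ m) (T : Polynomial ℤ) (A : Fin (2 * m * (2 * m)) → Fin (2 * m * (2 * m)) → Polynomial ℤ)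
    (H : Matrix (Fin (2 * m)) (Fin (2 * m)) (PowerSeries ℚ)) (hG : GFamily T A (entries H))
    (S : Matrix (Fin (2 * m)) (Fin (2 * m)) ℚ) (p : Polynomial ℚ) (B : Matrix (Fin (2 * m)) (Fin (2 * m)) (Polynomial ℚ))
    (hP : Polarised H S p B) (hM : FullMonodromy H S p B) :
    ∃ t₀ : ℕ, ∀ t : ℕ, t₀ ≤ t →
      ∀ (C : Matrix (Fin (2 * m)) (Fin (2 * m)) ℂ) (P : Matrix (Fin (2 * m)) (Fin (2 * m)) ℚ), RationalStructure S C P →
        IsHodge (F H t C P) →
          ∀ (r : ℕ) (wt : Fin r → ℤ) (Φ : ℤ → Submodule ℂ (Fin r → ℂ)) (e : Fin (2 * m) ≃ {i // wt i = 2 * (m : ℤ) - 1}),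
            (∀ (q : ℕ) (u : {i // wt i = 2 * (m : ℤ) - 1} → ℂ),
              u ∈ Gr wt Φ (2 * (m : ℤ) - 1) q ↔ (fun j => u (e j)) ∈ F H t C P q) → ¬ HasCM wt Φ := by
  have hpi : (2 * (Real.pi : ℂ) * Complex.I) ≠ 0 := Complex.two_pi_I_ne_zero
  obtain ⟨q', C', hGS⟩ := Pool.Agent.Y120.GH.gsys_of hG.ode hG.size hG.den (gal_eq hG)
  obtain ⟨t₀, hmain⟩ := Pool.Agent.Y118.HV.cm_large (H := H) hm hG.T_ne hG.ode hGS (qu_eq hG.regular)
    hP.S_skew hP.S_det hP.p_ne hP.B_det hP.S_inv hP.isotropic hP.form (fun R hR t h1 h2 g hg => by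
      refine hM R hR t h1 ?_ g ?_
      · rw [Pool.Agent.Y118.HV.bm_det] at h2
        exact h2
      · show _ • _ = _
        rw [map_eq, map_eq]
        exact hg)
  refine ⟨t₀, fun t h1 C P hC hF => ?_⟩
  obtain ⟨hdet, ⟨M, hMM⟩, κ, hPP⟩ := hC
  obtain ⟨hPd, hQ⟩ := dual_of (by omega) hP.S_det hdet hPP
  rw [map_eq, map_eq] at hMM
  have hPP : P⁻¹⁻¹ = P := Matrix.nonsing_inv_nonsing_inv _ (isUnit_iff_ne_zero.2 hPd)
  have hSs : (Pool.Agent.Y119.HY.cm S⁻¹).transpose = -Pool.Agent.Y119.HY.cm S⁻¹ := by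
    have h1 : (S⁻¹).transpose = -S⁻¹ := by
      rw [Matrix.transpose_nonsing_inv, hP.S_skew]
      refine Matrix.inv_eq_left_inv ?_
      rw [Matrix.neg_mul, Matrix.mul_neg, neg_neg, Matrix.nonsing_inv_mul _ (isUnit_iff_ne_zero.2 hP.S_det)]
    rw [← Pool.Agent.Y119.HY.cm_neg, ← h1]
    rfl
  obtain ⟨-, hQd, hsk⟩ := Pool.Agent.Y118.HV.kappa_neG hSs hP.S_det hdet hQ (by omega)
  have hFe : ∀ q, F H t C P q = Pool.Agent.Y118.HX.Fl (Pool.Agent.Y118.HV.vr (Pool.Agent.Y118.HV.Vt H t C))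
      (Pool.Agent.Y119.HY.cm P⁻¹⁻¹) q := fun q => by rw [hPP]; exact F_eq H t C P q
  have hj := hmain t h1 C M P⁻¹ _ _ hdet hpi hMM hQ (by
    intro q hq
    rw [eq_bot_iff]
    intro v hv
    rw [Submodule.mem_inf, Pool.Agent.Y118.HX.mem_cj, ← hFe, ← hFe] at hv
    rw [Submodule.mem_bot]
    exact hF q hq v hv.1 hv.2)
  rintro r wt Φ e hgr ⟨𝔱, hcomm, hwt, φ, hφ, hact⟩
  set ε : Fin (2 * m) → Fin r := fun i => (e i : Fin r) with hε
  set Bs : Set (Matrix (Fin (2 * m)) (Fin (2 * m)) ℚ) := {X | (∃ Y ∈ 𝔱, X = Y.submatrix ε ε) ∨ X = 1} with hBs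
  set G : Set (Matrix (Fin (2 * m)) (Fin (2 * m)) ℂ) := {Z | ∃ X ∈ Bs, Z = toC X} with hGG
  have hBc : ∀ X ∈ Bs, ∀ Y ∈ Bs, X * Y = Y * X := by
    rintro X (⟨X', hX, rfl⟩ | rfl) Y (⟨Y', hY, rfl⟩ | rfl)
    · rw [blk_mul e (hwt X' hX) (hwt Y' hY), blk_mul e (hwt Y' hY) (hwt X' hX), hcomm X' hX Y' hY]
    · rw [Matrix.mul_one, Matrix.one_mul]
    · rw [Matrix.mul_one, Matrix.one_mul]
    · rfl
  have hG0 : ∀ X ∈ G, ∀ Y ∈ G, X * Y = Y * X := by
    rintro _ ⟨X, hX, rfl⟩ _ ⟨Y, hY, rfl⟩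
    rw [map_eq, map_eq, ← Pool.Agent.Y119.HY.cm_mul, ← Pool.Agent.Y119.HY.cm_mul, hBc X hX Y hY]
  have hG1 : ∀ X ∈ G, ∀ Y ∈ Submodule.span ℂ G, X * Y = Y * X := by
    intro X hX Y hY
    induction hY using Submodule.span_induction with
    | mem y hy => exact hG0 X hX y hy
    | zero => rw [Matrix.mul_zero, Matrix.zero_mul]
    | add a b _ _ ha hb => rw [Matrix.mul_add, Matrix.add_mul, ha, hb]
    | smul c a _ ha => rw [Matrix.mul_smul, Matrix.smul_mul, ha]
  have hG2 : ∀ X ∈ Submodule.span ℂ G, ∀ Y ∈ Submodule.span ℂ G, X * Y = Y * X := by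
    intro X hX Y hY
    induction hX using Submodule.span_induction with
    | mem x hx => exact hG1 x hx Y hY
    | zero => rw [Matrix.mul_zero, Matrix.zero_mul]
    | add a b _ _ ha hb => rw [Matrix.mul_add, Matrix.add_mul, ha, hb]
    | smul c a _ ha => rw [Matrix.mul_smul, Matrix.smul_mul, ha]
  have hrat : ∀ X ∈ Submodule.span ℂ G, ∀ f : Module.Dual ℚ ℂ, toC (X.map f) ∈ Submodule.span ℂ G := by
    intro X hX
    induction hX using Submodule.span_induction with
    | mem x hx =>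
      obtain ⟨Y, hY, rfl⟩ := hx
      intro f
      have h2 : (toC Y).map f = f 1 • Y := by
        ext i j
        show f ((Y i j : ℚ) : ℂ) = f 1 * Y i j
        have h3 : ((Y i j : ℚ) : ℂ) = Y i j • (1 : ℂ) := by rw [Rat.smul_def, mul_one]
        rw [h3, map_smul, smul_eq_mul, mul_comm]
      rw [h2, map_smul_cast]
      exact Submodule.smul_mem _ _ (Submodule.subset_span ⟨Y, hY, rfl⟩)
    | zero =>
      intro f
      have h2 : toC ((0 : Matrix (Fin (2 * m)) (Fin (2 * m)) ℂ).map f) = 0 := by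
        ext i j
        show ((f 0 : ℚ) : ℂ) = 0
        rw [map_zero, Rat.cast_zero]
      rw [h2]
      exact Submodule.zero_mem _
    | add a b _ _ ha hb =>
      intro f
      have h2 : toC ((a + b).map f) = toC (a.map f) + toC (b.map f) := by
        ext i j
        show ((f (a i j + b i j) : ℚ) : ℂ) = ((f (a i j) : ℚ) : ℂ) + ((f (b i j) : ℚ) : ℂ)
        rw [map_add, Rat.cast_add]
      rw [h2]
      exact Submodule.add_mem _ (ha f) (hb f)
    | smul c a _ ha =>
      intro f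
      exact ha (f ∘ₗ LinearMap.mulLeft ℚ c)
  refine hj (Submodule.span ℂ G) hG2 (Pool.Agent.Y118.HV.flatS
    { carrier := {X | toC X ∈ Submodule.span ℂ G}
      add_mem' := fun {a b} ha hb => by
        show toC (a + b) ∈ Submodule.span ℂ G
        rw [map_eq, Pool.Agent.Y119.HY.cm_add, ← map_eq, ← map_eq]
        exact Submodule.add_mem _ ha hb
      zero_mem' := by
        show toC (0 : Matrix (Fin (2 * m)) (Fin (2 * m)) ℚ) ∈ Submodule.span ℂ G
        rw [map_eq, Pool.Agent.Y119.HY.cm_zero]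
        exact Submodule.zero_mem _
      smul_mem' := fun c a ha => by
        show toC (c • a) ∈ Submodule.span ℂ G
        rw [map_smul_cast]
        exact Submodule.smul_mem _ _ ha } (Submodule.span ℂ G) (fun X hX => hX) hrat)
    (Submodule.subset_span ⟨1, Or.inr rfl, by rw [map_eq, Pool.Agent.Y119.HY.cm_one]⟩) (φ.submatrix ε ε) ?_ ?_
  · have h2 : ∀ Z ∈ Submodule.span ℂ {Z : Matrix (Fin r) (Fin r) ℂ | ∃ X ∈ 𝔱, Z = toC X},
        Z.submatrix ε ε ∈ Submodule.span ℂ G := by
      intro Z hZ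
      induction hZ using Submodule.span_induction with
      | mem x hx =>
        obtain ⟨Y, hY, rfl⟩ := hx
        exact Submodule.subset_span ⟨Y.submatrix ε ε, Or.inl ⟨Y, hY, rfl⟩, rfl⟩
      | zero => exact Submodule.zero_mem _
      | add a b _ _ ha hb => exact Submodule.add_mem _ ha hb
      | smul c a _ ha => exact Submodule.smul_mem _ _ ha
    exact h2 φ hφ
  · intro q hq v hv hsv
    rw [← hFe] at hv hsv
    have h2 : (fun x => v (e.symm x)) ∈ Gr wt Φ (2 * (m : ℤ) - 1) q := (hgr q _).2 (by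
      have h3 : (fun j => (fun x => v (e.symm x)) (e j)) = v := by
        funext j
        simp
      rw [h3]
      exact hv)
    have h4 : star (fun x => v (e.symm x)) ∈ Gr wt Φ (2 * (m : ℤ) - 1) (2 * (m : ℤ) - 1 - q) := by
      have h5 : (2 * (m : ℤ) - 1 - q) = ((2 * m - 1 - q : ℕ) : ℤ) := by omega
      rw [h5]
      refine (hgr _ _).2 ?_
      have h3 : (fun j => (star (fun x => v (e.symm x)) : {i // wt i = 2 * (m : ℤ) - 1} → ℂ) (e j)) = star v := by
        funext j
        simp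
      rw [h3]
      exact hsv
    have h6 := hact _ _ _ h2 h4
    funext j
    have h7 := congrFun h6 (e j)
    have h8 : Matrix.vecMul (fun x => v (e.symm x)) (φ.submatrix (fun i : {i // wt i = 2 * (m : ℤ) - 1} => (i : Fin r))
        fun i : {i // wt i = 2 * (m : ℤ) - 1} => (i : Fin r)) (e j) = ∑ x, v (e.symm x) * φ (x : Fin r) (e j : Fin r) := rfl
    rw [h8, ← Equiv.sum_comp e] at h7
    simp only [Equiv.symm_apply_apply, Pi.smul_apply, smul_eq_mul] at h7
    show ∑ a, v a * φ (e a : Fin r) (e j : Fin r) = (q : ℂ) * v j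
    rw [h7]
    simp

end Pool.Agent.Results.MP_cb3775_ag.MixedCM
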